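import Pool.Agent.PK4.All

/-!
# The fourth moments of eigenfunctions and their plane waves

Let `Γ ⊂ SL(2, ℝ)` be countable with compact quotient `Γ \ ℍ` (fundamental domain `D`), with any metric
`e^{2ρ} (dx² + dy²) / y²`. Let `φₙ` be real smooth `Γ`-invariant Laplace eigenfunctions of this metric,
normalised in `L²`, with eigenvalues `mₙ² → ∞`. Let `Fₙ(x)` be `φₙ` near a uniform random point, in a
uniform random frame, at distances `x / mₙ`, and `K = J₀(|x|)`. Let `κₙ` be the mean of `φₙ⁴`. **Nothing is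
assumed on `κₙ`.**

Let `A_N(v)` (`PWV.coef`) be the mean of `Fₙ(x) e^{-i v·x}` over the box `{0, …, N - 1}²`, and
`E_N = E (9 N² / 16 π²) ∫ |A_N(v)|⁴ dv` over the square `[-π, π]²` (`PK4.enM`, `PWV.en`) the energy of the
plane waves in `Fₙ`. (The square contains the frequencies `|v| = 1` of `Fₙ`; a wave `a e^{i v·x}` has energy
`|a|⁴` in the limit, so the real wave `a e^{i v·x} + conj` has energy `2 |a|⁴`.) There are *no plane waves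
in `L⁴`* if `E sup_v |A_N(v)|⁴ → 0` for `n → ∞` and then `N → ∞` (`PK4.Box4`).

`f = o(κₙ)` means: for every `ε > 0` and every `N ≥ N₀(ε)`, `|f| ≤ ε κₙ` for large `n`.

* **Quantum ergodic sequences.** `κₙ = 3 + 3 E_N + o(κₙ)`; the mean square of `P - 1`, where `P` is the
  mean of `Fₙ²` over the box (`PWV.loc`), is `2 E_N + o(κₙ)`; the mixed moments of order four are the
  Gaussian ones plus `E_N` times
  `K(x₁ + x₂ - x₃ - x₄) + K(x₁ + x₃ - x₂ - x₄) + K(x₁ + x₄ - x₂ - x₃)`, up to `o(κₙ)`.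
* **Every sequence.** Let the semiclassical measure of the sequence be `dA(z) s_z(dw)`, with local mass
  `p(z) = s_z(S¹)` in `L²` (`BSL.Sem`; if `κₙ` is bounded, a subsequence always has such a measure; for
  quantum ergodic sequences `s_z` is uniform). Let `a(z)` be the sum of the squares of the masses of the
  atoms of `s_z` (`BSL.dia`), and `W_z` the four-point function of the Gaussian wave with directional
  distribution `s_z` in a random frame (`NFP.dirWick`). Let `b = avg (p² - 2 a)`. Then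
  `κₙ = 3 b + 3 E_N + o(κₙ)`, the mean square of `P - 1` is `b - 1 + 2 E_N + o(κₙ)`, and the mixed moments
  of order four are `avg W_z` plus `(κₙ / 3 - avg p²)` times
  `K(x₁ + x₂ - x₃ - x₄) + K(x₁ + x₃ - x₂ - x₄) + K(x₁ + x₄ - x₂ - x₃)`, up to `o(κₙ)`.
* If only `φₙ² → 1` weakly, then `κₙ ≤ 3 + 3 E_N + o(κₙ)`; if moreover there are no plane waves in `L⁴`,
  then `κₙ → 3`.
* **Order four.** The following are equivalent: all mixed moments of `Fₙ` of order at most four tend to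
  those of the random monochromatic wave; the same over every region of the surface and in every fixed
  direction; `φₙ` is quantum ergodic and `κₙ → 3`; `φₙ` is quantum ergodic and has no plane waves in `L⁴`.
* **Negative curvature, every sequence.** `κₙ ≥ 3 + 3 E_N - o(κₙ)`. If `φₙ² → 1` weakly, then
  `κₙ = 3 + 3 E_N + o(κₙ)`; and conversely if `κₙ` is bounded. `κₙ → 3` if and only if `φₙ² → 1` weakly and
  there are no plane waves in `L⁴`.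
  One number decides the moments of order four: let `Tₙ = ∑ cᵢ Fₙ(xᵢ)` be one linear statistic, with
  distinct points `xᵢ` and at least two coefficients `cᵢ ≠ 0`, and `τ² = ∑ cᵢ cⱼ K(xᵢ - xⱼ)`; let `y ≠ z`.
  The conditions above (order four) are equivalent to `E Tₙ⁴ → 3 τ⁴`, and to
  `E Fₙ(y)² Fₙ(z)² → 1 + 2 K(y - z)²`.
  For every linear statistic and all continuous `Γ`-invariant functions `w > 0` and `g`,
  `liminf (avg (w g²) E (w Tₙ⁴) - 3 τ⁴ (avg (w g φₙ²))²) ≥ 0`; in particular `liminf κₙ ≥ 3`. The same for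
  `E (w Fₙ(x)² Fₙ(y)²)`, with `1 + 2 K(x - y)²` instead of `3 τ⁴`. If `κₙ → 3`, then `φₙ²` is equidistributed
  on the surface.
-/

open MeasureTheory UpperHalfPlane MatrixGroups Berry Filter Topology
open scoped ContDiff

theorem Pool.Agent.Results.MP_4fa179_mp.FourthMomentFormula.result
    (Γ : Subgroup SL(2, ℝ)) [Countable Γ] (ρ : ℍ → ℝ)
    (hρ : ContDiffOn ℝ ∞ (fun w : ℂ => ρ (ofComplex w)) {w | 0 < w.im})
    (hρΓ : ∀ γ ∈ Γ, ∀ z, ρ (γ • z) = ρ z)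
    (D : Set ℍ) (hDm : MeasurableSet D) (hD : IsFundamentalDomain Γ D (volume : Measure ℍ))
    (hK : ∃ K : Set ℍ, IsCompact K ∧ ∀ z, ∃ γ ∈ Γ, γ • z ∈ K)
    (φ : ℕ → ℍ → ℝ) (m : ℕ → ℝ) (hφ : REigenSeq Γ ρ φ m)
    (hs : ∀ n, ContDiffOn ℝ ∞ (fun w : ℂ => φ n (ofComplex w)) {w | 0 < w.im})
    (hn : ∀ n, rAvg ρ D (fun z => φ n z ^ 2) = 1) :
    (QE.QuantumErgodic ρ φ m → ∀ ε > 0, ∃ N₀ : ℕ, ∀ N ≥ N₀, ∀ᶠ n in atTop,
      |rAvg ρ D (fun z => φ n z ^ 4) - 3 - 3 * PK4.enM ρ D φ m N n|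
        ≤ ε * rAvg ρ D (fun z => φ n z ^ 4) ∧
      |∫ p, (PWV.loc (fun x => rWave ρ (φ n) (m n) x p) N - 1) ^ 2 ∂(rFrameProb ρ D)
        - 2 * PK4.enM ρ D φ m N n| ≤ ε * rAvg ρ D (fun z => φ n z ^ 4)) ∧
    (QE.QuantumErgodic ρ φ m → ∀ x₁ x₂ x₃ x₄ : ℂ, ∀ ε > 0, ∃ N₀ : ℕ, ∀ N ≥ N₀, ∀ᶠ n in atTop,
      |∫ p, rWave ρ (φ n) (m n) x₁ p * rWave ρ (φ n) (m n) x₂ p * rWave ρ (φ n) (m n) x₃ p
          * rWave ρ (φ n) (m n) x₄ p ∂(rFrameProb ρ D)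
        - (waveK (x₁ - x₂) * waveK (x₃ - x₄) + waveK (x₁ - x₃) * waveK (x₂ - x₄)
          + waveK (x₁ - x₄) * waveK (x₂ - x₃)
          + PK4.enM ρ D φ m N n * (waveK (x₁ + x₂ - x₃ - x₄) + waveK (x₁ + x₃ - x₂ - x₄)
            + waveK (x₁ + x₄ - x₂ - x₃)))| ≤ ε * rAvg ρ D (fun z => φ n z ^ 4)) ∧
    (∀ s : ProbabilityTheory.Kernel ℍ (Metric.sphere (0 : ℂ) 1), BSL.Sem ρ φ m s →
      ∀ ε > 0, ∃ N₀ : ℕ, ∀ N ≥ N₀, ∀ᶠ n in atTop,
        |rAvg ρ D (fun z => φ n z ^ 4)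
            - 3 * rAvg ρ D (fun z => ((s z) Set.univ).toReal ^ 2 - 2 * BSL.dia (s z))
            - 3 * PK4.enM ρ D φ m N n| ≤ ε * rAvg ρ D (fun z => φ n z ^ 4) ∧
        |∫ p, (PWV.loc (fun x => rWave ρ (φ n) (m n) x p) N - 1) ^ 2 ∂(rFrameProb ρ D)
            - (rAvg ρ D (fun z => ((s z) Set.univ).toReal ^ 2 - 2 * BSL.dia (s z)) - 1)
            - 2 * PK4.enM ρ D φ m N n| ≤ ε * rAvg ρ D (fun z => φ n z ^ 4)) ∧
    (∀ s : ProbabilityTheory.Kernel ℍ (Metric.sphere (0 : ℂ) 1), BSL.Sem ρ φ m s →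
      ∀ x₁ x₂ x₃ x₄ : ℂ, ∀ ε > 0, ∀ᶠ n in atTop,
        |∫ p, rWave ρ (φ n) (m n) x₁ p * rWave ρ (φ n) (m n) x₂ p * rWave ρ (φ n) (m n) x₃ p
            * rWave ρ (φ n) (m n) x₄ p ∂(rFrameProb ρ D)
          - (rAvg ρ D (fun z => NFP.dirWick (s z) ![x₁, x₂, x₃, x₄])
            + (rAvg ρ D (fun z => φ n z ^ 4) / 3
                - rAvg ρ D (fun z => ((s z) Set.univ).toReal ^ 2))
              * (waveK (x₁ + x₂ - x₃ - x₄) + waveK (x₁ + x₃ - x₂ - x₄)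
                + waveK (x₁ + x₄ - x₂ - x₃)))| ≤ ε * rAvg ρ D (fun z => φ n z ^ 4)) ∧
    ((∃ B : ℝ, ∀ n, rAvg ρ D (fun z => φ n z ^ 4) ≤ B) →
      ∃ (j : ℕ → ℕ) (s : ProbabilityTheory.Kernel ℍ (Metric.sphere (0 : ℂ) 1)), StrictMono j ∧
        BSL.Sem ρ (fun n => φ (j n)) (fun n => m (j n)) s) ∧
    (PWV.Equi φ → ∀ ε > 0, ∃ N₀ : ℕ, ∀ N ≥ N₀, ∀ᶠ n in atTop,
      rAvg ρ D (fun z => φ n z ^ 4)
        ≤ 3 + 3 * PK4.enM ρ D φ m N n + ε * rAvg ρ D (fun z => φ n z ^ 4)) ∧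
    (PWV.Equi φ → PK4.Box4 ρ D φ m →
      Tendsto (fun n => rAvg ρ D fun z => φ n z ^ 4) atTop (𝓝 3)) ∧
    List.TFAE [
      RGaussUpToFour ρ D φ m,
      RLocalGauss ρ φ m,
      QE.QuantumErgodic ρ φ m ∧ Tendsto (fun n => rAvg ρ D fun z => φ n z ^ 4) atTop (𝓝 3),
      QE.QuantumErgodic ρ φ m ∧ PK4.Box4 ρ D φ m] ∧
    ((∀ z : ℍ, 0 < 1 + z.im ^ 2 * Laplacian.laplacian (fun w : ℂ => ρ (ofComplex w)) z) →
      (∀ ε > 0, ∃ N₀ : ℕ, ∀ N ≥ N₀, ∀ᶠ n in atTop,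
        3 + 3 * PK4.enM ρ D φ m N n
          ≤ rAvg ρ D (fun z => φ n z ^ 4) + ε * rAvg ρ D (fun z => φ n z ^ 4)) ∧
      (PWV.Equi φ → ∀ ε > 0, ∃ N₀ : ℕ, ∀ N ≥ N₀, ∀ᶠ n in atTop,
        |rAvg ρ D (fun z => φ n z ^ 4) - 3 - 3 * PK4.enM ρ D φ m N n|
          ≤ ε * rAvg ρ D (fun z => φ n z ^ 4)) ∧
      ((∃ B : ℝ, ∀ n, rAvg ρ D (fun z => φ n z ^ 4) ≤ B) →
        (∀ ε > 0, ∃ N₀ : ℕ, ∀ N ≥ N₀, ∀ᶠ n in atTop, rAvg ρ D (fun z => φ n z ^ 4)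
          ≤ 3 + 3 * PK4.enM ρ D φ m N n + ε * rAvg ρ D (fun z => φ n z ^ 4)) → PWV.Equi φ) ∧
      (Tendsto (fun n => rAvg ρ D fun z => φ n z ^ 4) atTop (𝓝 3) ↔
        PWV.Equi φ ∧ PK4.Box4 ρ D φ m) ∧
      (∀ (r : ℕ) (c : Fin r → ℝ) (x : Fin r → ℂ), Function.Injective x →
        (∃ i j, i ≠ j ∧ c i ≠ 0 ∧ c j ≠ 0) → ∀ y z : ℂ, y ≠ z → List.TFAE [
          Tendsto (fun n => ∫ p, (∑ i, c i * rWave ρ (φ n) (m n) (x i) p) ^ 4 ∂(rFrameProb ρ D))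
            atTop (𝓝 (3 * (∑ i, ∑ j, c i * c j * waveK (x i - x j)) ^ 2)),
          Tendsto (fun n => ∫ p, rWave ρ (φ n) (m n) y p ^ 2 * rWave ρ (φ n) (m n) z p ^ 2
            ∂(rFrameProb ρ D)) atTop (𝓝 (1 + 2 * waveK (y - z) ^ 2)),
          QE.QuantumErgodic ρ φ m ∧ Tendsto (fun n => rAvg ρ D fun z => φ n z ^ 4) atTop (𝓝 3),
          RGaussUpToFour ρ D φ m,
          RLocalGauss ρ φ m]) ∧
      (∀ w g : ℍ → ℝ, Continuous w → (∀ z, 0 < w z) → (∀ γ ∈ Γ, ∀ z, w (γ • z) = w z) →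
        Continuous g → (∀ γ ∈ Γ, ∀ z, g (γ • z) = g z) →
        ∀ (r : ℕ) (c : Fin r → ℝ) (x : Fin r → ℂ), ∀ ε > 0, ∀ᶠ n in atTop,
          3 * (∑ i, ∑ j, c i * c j * waveK (x i - x j)) ^ 2
              * rAvg ρ D (fun z => w z * g z * φ n z ^ 2) ^ 2 - ε
            ≤ rAvg ρ D (fun z => w z * g z ^ 2)
              * ∫ p, w p.1 * (∑ i, c i * rWave ρ (φ n) (m n) (x i) p) ^ 4 ∂(rFrameProb ρ D)) ∧
      (∀ w g : ℍ → ℝ, Continuous w → (∀ z, 0 < w z) → (∀ γ ∈ Γ, ∀ z, w (γ • z) = w z) →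
        Continuous g → (∀ γ ∈ Γ, ∀ z, g (γ • z) = g z) →
        ∀ x y : ℂ, ∀ ε > 0, ∀ᶠ n in atTop,
          (1 + 2 * waveK (x - y) ^ 2) * rAvg ρ D (fun z => w z * g z * φ n z ^ 2) ^ 2 - ε
            ≤ rAvg ρ D (fun z => w z * g z ^ 2)
              * ∫ p, w p.1 * (rWave ρ (φ n) (m n) x p ^ 2 * rWave ρ (φ n) (m n) y p ^ 2)
                ∂(rFrameProb ρ D)) ∧
      (Tendsto (fun n => rAvg ρ D (fun z => φ n z ^ 4)) atTop (𝓝 3) →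
        ∀ f : ℍ → ℝ, Continuous f → (∀ γ ∈ Γ, ∀ z, f (γ • z) = f z) →
          Tendsto (fun n => rAvg ρ D (fun z => f z * φ n z ^ 2)) atTop (𝓝 (rAvg ρ D f)))) := by
  have H0 : PK4.Hy Γ ρ D φ m := ⟨⟨hρ, hρΓ, hK⟩, hDm, hD, hφ, hs, hn⟩
  obtain ⟨h1, h2, h3, h4, h5⟩ := PK4.l5_closed Γ ρ hρ hρΓ D hDm hD hK φ m hφ hs hn
  refine ⟨h1, fun hq x₁ x₂ x₃ x₄ ε hε => ?_,
    fun s hS ε hε => PK4.mas_closed H0 hS hε, fun s hS x₁ x₂ x₃ x₄ ε hε => ?_,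
    fun hB => PK4.exists_sem H0 hB, h3, PK4.three_closed H0, h4, fun hneg => ?_⟩
  · obtain ⟨N₀, hN₀⟩ := h2 hq ![x₁, x₂, x₃, x₄] ε hε
    refine ⟨N₀, fun N hN => ?_⟩
    filter_upwards [hN₀ N hN] with n a1
    have e1 : PK4.gm ρ D φ m n ![x₁, x₂, x₃, x₄]
        - QE.wick ![x₁, x₂, x₃, x₄] - PK4.enM ρ D φ m N n * NFP.resK ![x₁, x₂, x₃, x₄]
        = ∫ p, rWave ρ (φ n) (m n) x₁ p * rWave ρ (φ n) (m n) x₂ p * rWave ρ (φ n) (m n) x₃ p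
            * rWave ρ (φ n) (m n) x₄ p ∂(rFrameProb ρ D)
          - (waveK (x₁ - x₂) * waveK (x₃ - x₄) + waveK (x₁ - x₃) * waveK (x₂ - x₄)
            + waveK (x₁ - x₄) * waveK (x₂ - x₃)
            + PK4.enM ρ D φ m N n * (waveK (x₁ + x₂ - x₃ - x₄) + waveK (x₁ + x₃ - x₂ - x₄)
              + waveK (x₁ + x₄ - x₂ - x₃))) := by
      unfold PK4.gm QE.wick NFP.resK
      simp only [Matrix.cons_val_zero, Matrix.cons_val_one, Matrix.cons_val]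
      ring
    rw [← e1]
    exact a1
  · filter_upwards [PK4.law_closed H0 hS ![x₁, x₂, x₃, x₄] hε] with n a1
    have e1 : PK4.gm ρ D φ m n ![x₁, x₂, x₃, x₄]
        - (rAvg ρ D (fun z => NFP.dirWick (s z) ![x₁, x₂, x₃, x₄])
          + (PK4.km ρ D φ n / 3 - rAvg ρ D (fun z => ((s z) Set.univ).toReal ^ 2))
            * NFP.resK ![x₁, x₂, x₃, x₄])
        = ∫ p, rWave ρ (φ n) (m n) x₁ p * rWave ρ (φ n) (m n) x₂ p * rWave ρ (φ n) (m n) x₃ p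
            * rWave ρ (φ n) (m n) x₄ p ∂(rFrameProb ρ D)
          - (rAvg ρ D (fun z => NFP.dirWick (s z) ![x₁, x₂, x₃, x₄])
            + (rAvg ρ D (fun z => φ n z ^ 4) / 3
                - rAvg ρ D (fun z => ((s z) Set.univ).toReal ^ 2))
              * (waveK (x₁ + x₂ - x₃ - x₄) + waveK (x₁ + x₃ - x₂ - x₄)
                + waveK (x₁ + x₄ - x₂ - x₃))) := by
      unfold PK4.gm PK4.km NFP.resK
      simp only [Matrix.cons_val_zero, Matrix.cons_val_one, Matrix.cons_val]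
    rw [← e1]
    exact a1
  · obtain ⟨g1, g2, g3⟩ := h5 hneg
    have H : ONE.Hyp Γ ρ D φ m := ⟨⟨hρ, hρΓ, hK⟩, hneg, hDm, hD, hφ, hs, hn⟩
    exact ⟨g1, g2, fun hB hf => PK4.equi_closed H0 hneg hB hf,
      g3, fun r c x hx hc y z hyz => ONE.tfae_final H hx hc hyz,
      QE.NC.final Γ ρ hρ hρΓ hneg D hDm hD hK φ m hφ hs hn,
      fun w g hw hw0 hwi hg hgi x y ε hε => ONE.corr_lower H hw hw0 hwi hg hgi x y hε,
      fun h4 _ hf hfi => QE.NC.mass hρ hρΓ hneg hDm hD hK hφ hs hn h4 hf hfi⟩
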