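import Pool.Agent.BWM.C41

/-!
# Moments of order at most three of all eigenfunctions on closed surfaces of negative curvature

Let `Γ ⊂ SL(2, ℝ)` be countable with compact quotient `Γ \ ℍ` (fundamental domain `D`), let `ρ` be a
smooth `Γ`-invariant function on `ℍ` such that the metric `e^{2ρ} (dx² + dy²) / y²` has negative
curvature, and let `φₙ` be any sequence of smooth real `Γ`-invariant Laplace eigenfunctions of this
metric, with eigenvalues `mₙ² → ∞` and mean of `φₙ²` equal to one.  Neither quantum ergodicity nor a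
bound of any norm is assumed.  Let `Fₙ` be the local wave of `φₙ` in a random frame at a random point,
on the scale of the wavelength.  Then all the moments of order at most three of `Fₙ` and of its
derivatives at the origin converge to those of the isotropic Gaussian wave.  Moreover, for each smooth
weight `w` of the base point, the moments of order one and three still tend to zero, the ones of order
two are those of the Gaussian wave multiplied by the mean of `w φₙ²`, and the products of three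
derivatives of `φₙ` in fixed directions tend weakly to zero.
-/

open MeasureTheory UpperHalfPlane MatrixGroups Berry Filter Topology
open scoped ContDiff

theorem Pool.Agent.Results.MP_4fa179_mp.NegativeCurvatureThirdOrder.result
    (Γ : Subgroup SL(2, ℝ)) [Countable Γ] (D : Set ℍ) (hDm : MeasurableSet D)
    (hD : IsFundamentalDomain Γ D (volume : Measure ℍ))
    (hK : ∃ K : Set ℍ, IsCompact K ∧ ∀ z, ∃ γ ∈ Γ, γ • z ∈ K)
    (ρ : ℍ → ℝ) (hρ : ContDiffOn ℝ ∞ (fun w : ℂ => ρ (ofComplex w)) {w | 0 < w.im})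
    (hρΓ : ∀ γ ∈ Γ, ∀ z, ρ (γ • z) = ρ z)
    (hneg : ∀ z : ℍ, 0 < 1 + z.im ^ 2 * Laplacian.laplacian (fun w : ℂ => ρ (ofComplex w)) z)
    (φ : ℕ → ℍ → ℝ) (m : ℕ → ℝ) (hφ : REigenSeq Γ ρ φ m)
    (hs : ∀ n, ContDiffOn ℝ ∞ (fun w : ℂ => φ n (ofComplex w)) {w | 0 < w.im})
    (hn : ∀ n, rAvg ρ D (fun z => φ n z ^ 2) = 1) :
    (∀ x : ℂ, Tendsto (fun n => ∫ p, rWave ρ (φ n) (m n) x p ∂(rFrameProb ρ D)) atTop (𝓝 0)) ∧
    (∀ x y : ℂ, Tendsto (fun n => ∫ p, rWave ρ (φ n) (m n) x p * rWave ρ (φ n) (m n) y p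
      ∂(rFrameProb ρ D)) atTop (𝓝 (waveK (x - y)))) ∧
    (∀ x y z : ℂ, Tendsto (fun n => ∫ p, rWave ρ (φ n) (m n) x p * rWave ρ (φ n) (m n) y p
      * rWave ρ (φ n) (m n) z p ∂(rFrameProb ρ D)) atTop (𝓝 0)) ∧
    (∀ (k : Fin 3 → ℕ) (v : ∀ i, Fin (k i) → ℂ), Tendsto (fun n =>
      ∫ p, ∏ i, iteratedFDeriv ℝ (k i) (fun x => rWave ρ (φ n) (m n) x p) 0 (v i)
        ∂(rFrameProb ρ D)) atTop (𝓝 0)) ∧
    (∀ w : ℍ → ℝ, ContDiffOn ℝ ∞ (fun z : ℂ => w (ofComplex z)) {z | 0 < z.im} →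
      (∀ γ ∈ Γ, ∀ z, w (γ • z) = w z) →
      (∀ x : ℂ, Tendsto (fun n => ∫ p, w p.1 * rWave ρ (φ n) (m n) x p ∂(rFrameProb ρ D))
        atTop (𝓝 0)) ∧
      (∀ x y : ℂ, Tendsto (fun n => (∫ p, w p.1 * (rWave ρ (φ n) (m n) x p
          * rWave ρ (φ n) (m n) y p) ∂(rFrameProb ρ D))
        - waveK (x - y) * rAvg ρ D (fun z => w z * φ n z ^ 2)) atTop (𝓝 0)) ∧
      (∀ x y z : ℂ, Tendsto (fun n => ∫ p, w p.1 * (rWave ρ (φ n) (m n) x p
          * rWave ρ (φ n) (m n) y p * rWave ρ (φ n) (m n) z p) ∂(rFrameProb ρ D)) atTop (𝓝 0)) ∧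
      (∀ (k : Fin 3 → ℕ) (v : ∀ i, Fin (k i) → ℂ), Tendsto (fun n =>
        ∫ p, w p.1 * ∏ i, iteratedFDeriv ℝ (k i) (fun x => rWave ρ (φ n) (m n) x p) 0 (v i)
          ∂(rFrameProb ρ D)) atTop (𝓝 0))) ∧
    (∀ ψ : ℂ → ℝ, ContDiff ℝ ∞ ψ → HasCompactSupport ψ → tsupport ψ ⊆ {w | 0 < w.im} →
      ∀ (k : Fin 3 → ℕ) (v : ∀ i, Fin (k i) → ℂ), Tendsto (fun n =>
        ∫ z, ψ z * ∏ i, (1 / m n) ^ k i *
          iteratedFDeriv ℝ (k i) (fun w : ℂ => φ n (ofComplex w)) z (v i)) atTop (𝓝 0)) := by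
  have H := U3.fnU Γ D ρ φ m hDm hD hK hρ hρΓ hneg hφ hs hn
  obtain ⟨a1, a2, a3, -, -, a6⟩ := H (fun _ => 1) contDiffOn_const (fun _ _ _ => rfl)
  refine ⟨fun x => ?_, fun x y => ?_, fun x y z => ?_, fun k v => ?_, fun w hw hwΓ => ?_,
    U3.fnd Γ D ρ φ m hDm hD hK hρ hρΓ hneg hφ hs hn⟩
  · simpa using a1 x
  · have := a2 x y
    simp only [one_mul, hn, mul_one] at this
    have h2 := this.add_const (waveK (x - y))
    simpa using h2
  · simpa using a3 x y z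
  · have := a6 k v
    simpa only [one_mul, QJ.jetProd] using this
  · obtain ⟨b1, b2, b3, -, -, b6⟩ := H w hw hwΓ
    exact ⟨b1, b2, b3, b6⟩
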