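import Pool.Agent.PKM.All
import Pool.Agent.BSL.All

/-!
# Equidistribution of the mass at the Planck scale and Benjamini-Schramm limits

Let `Γ ⊂ SL(2, ℝ)` be countable with compact quotient `Γ \ ℍ` (fundamental domain `D`), with any metric
`e^{2ρ} (dx² + dy²) / y²`. Let `φₙ` be real smooth `Γ`-invariant Laplace eigenfunctions of this metric,
normalised in `L²`, with eigenvalues `mₙ² → ∞`. Let `Fₙ(x)` be `φₙ` near a uniform random point, in a
uniform random frame, at distances `x / mₙ`, and `K = J₀(|x|)` the covariance function of the random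
monochromatic wave. Let the random field `F` be a limit in law of `Fₙ` (finite-dimensional distributions).
Nothing is assumed on the moments of `Fₙ` or `F`; in particular mass may be lost in the limit.

`Planck a` (`PKM.Planck`) says that the averages of `Fₙ(x) Fₙ(x + a)` over the disc `|x| < R` tend to `K(a)` in
measure, for `n → ∞` and then `R → ∞`; for `a = 0`: the averages of `φₙ²` over almost all discs of radius
`R / mₙ` are near to `1`.

* `Planck 0` implies `E F(0)² = 1`, `E F(0)⁴ ≤ 3` and that `φₙ² → 1` weakly.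
* The following are equivalent: the moments of `F` of order at most four are those of the random
  monochromatic wave; `Planck a` for all `a`; `Planck 0` and `Planck a` for one `a ≠ 0`; `φₙ` is quantum ergodic
  and `Planck 0`; `φₙ` is quantum ergodic, `E F(0)² = 1` and `E F(0)⁴ = 3`.
* They hold if the law of `F` is invariant and ergodic under translations and `E F(0)² = 1`.

If the curvature `- e^{-2ρ} (1 + y² Δ ρ)` is negative, then moreover: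

* `Planck 0` holds if and only if `E F(0)² = 1` and `E F(0)⁴ = 3`.
* If `E F(0)² = 1` then `E F(0)⁴ ≥ 3` (it may be infinite), and if it is finite: the moments of `F` of orders
  one, two and three are those of the random monochromatic wave; `E T⁴ ≥ 3 τ⁴` for all `T = ∑ cᵢ F(xᵢ)`,
  `τ² = ∑ cᵢ cⱼ K(xᵢ - xⱼ)`, and `E F(x)² F(y)² ≥ 1 + 2 K(x - y)²`, the Gaussian values;
  `limsup (avg (w φₙ²) - avg w)² ≤ (E F(0)⁴ - 3) / 3 * (avg w² - (avg w)²)` for continuous `w`; if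
  `E F(x)² F(y)² = 1 + 2 K(x - y)²` for one pair `x ≠ y`, or `E T⁴ = 3 τ⁴` for one `T` with distinct points and
  at least two coefficients `cᵢ ≠ 0`, then the sequence `φₙ` is quantum ergodic and all mixed moments of
  order four of `F` are those of the random monochromatic wave.
-/

open MeasureTheory UpperHalfPlane MatrixGroups Berry Filter Topology
open scoped ContDiff

theorem Pool.Agent.Results.MP_4fa179_mp.PlanckScale.result
    (Γ : Subgroup SL(2, ℝ)) [Countable Γ] (ρ : ℍ → ℝ)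
    (hρ : ContDiffOn ℝ ∞ (fun w : ℂ => ρ (ofComplex w)) {w | 0 < w.im})
    (hρΓ : ∀ γ ∈ Γ, ∀ z, ρ (γ • z) = ρ z)
    (D : Set ℍ) (hDm : MeasurableSet D) (hD : IsFundamentalDomain Γ D (volume : Measure ℍ))
    (hK : ∃ K : Set ℍ, IsCompact K ∧ ∀ z, ∃ γ ∈ Γ, γ • z ∈ K)
    (φ : ℕ → ℍ → ℝ) (m : ℕ → ℝ) (hφ : REigenSeq Γ ρ φ m)
    (hs : ∀ n, ContDiffOn ℝ ∞ (fun w : ℂ => φ n (ofComplex w)) {w | 0 < w.im})
    (hn : ∀ n, rAvg ρ D (fun z => φ n z ^ 2) = 1)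
    (Ω : Type) [MeasurableSpace Ω] (P : Measure Ω) [IsProbabilityMeasure P] (F : ℂ → Ω → ℝ)
    (hF : ∀ x, Measurable (F x))
    (hlaw : ∀ (r : ℕ) (x : Fin r → ℂ) (G : (Fin r → ℝ) → ℝ), Continuous G →
      (∃ C, ∀ t, |G t| ≤ C) →
      Tendsto (fun n => ∫ p, G (fun i => rWave ρ (φ n) (m n) (x i) p) ∂(rFrameProb ρ D))
        atTop (𝓝 (∫ o, G (fun i => F (x i) o) ∂P))) :
    (PKM.Planck ρ D φ m 0 → ∫ o, F 0 o ^ 2 ∂P = 1 ∧ Integrable (fun o => F 0 o ^ 4) P ∧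
      ∫ o, F 0 o ^ 4 ∂P ≤ 3 ∧ PWV.Equi φ) ∧
    List.TFAE [
      PKM.Gauss4 P F,
      ∀ a : ℂ, PKM.Planck ρ D φ m a,
      PKM.Planck ρ D φ m 0 ∧ ∃ a : ℂ, a ≠ 0 ∧ PKM.Planck ρ D φ m a,
      QE.QuantumErgodic ρ φ m ∧ PKM.Planck ρ D φ m 0,
      QE.QuantumErgodic ρ φ m ∧ ∫ o, F 0 o ^ 2 ∂P = 1 ∧ ∫ o, F 0 o ^ 4 ∂P = 3] ∧
    (BSL.Ergo P F → ∫ o, F 0 o ^ 2 ∂P = 1 → PKM.Gauss4 P F) ∧
    ((∀ z : ℍ, 0 < 1 + z.im ^ 2 * Laplacian.laplacian (fun w : ℂ => ρ (ofComplex w)) z) →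
      (PKM.Planck ρ D φ m 0 ↔ ∫ o, F 0 o ^ 2 ∂P = 1 ∧ ∫ o, F 0 o ^ 4 ∂P = 3) ∧
      (∫ o, F 0 o ^ 2 ∂P = 1 →
        3 ≤ ∫⁻ o, ENNReal.ofReal (F 0 o ^ 4) ∂P ∧
        (Integrable (fun o => F 0 o ^ 4) P →
          (∀ x : ℂ, Integrable (F x) P ∧ ∫ o, F x o ∂P = 0) ∧
          (∀ x y : ℂ, Integrable (fun o => F x o * F y o) P ∧
            ∫ o, F x o * F y o ∂P = waveK (x - y)) ∧
          (∀ x y z : ℂ, Integrable (fun o => F x o * F y o * F z o) P ∧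
            ∫ o, F x o * F y o * F z o ∂P = 0) ∧
          (∀ (r : ℕ) (c : Fin r → ℝ) (x : Fin r → ℂ),
            Integrable (fun o => (∑ i, c i * F (x i) o) ^ 4) P ∧
            3 * (∑ i, ∑ j, c i * c j * waveK (x i - x j)) ^ 2
              ≤ ∫ o, (∑ i, c i * F (x i) o) ^ 4 ∂P) ∧
          (∀ x y : ℂ, Integrable (fun o => F x o ^ 2 * F y o ^ 2) P ∧
            1 + 2 * waveK (x - y) ^ 2 ≤ ∫ o, F x o ^ 2 * F y o ^ 2 ∂P) ∧
          (∀ w : ℍ → ℝ, Continuous w → (∀ γ ∈ Γ, ∀ z, w (γ • z) = w z) → ∀ ε > 0,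
            ∀ᶠ n in atTop, (rAvg ρ D (fun z => w z * φ n z ^ 2) - rAvg ρ D w) ^ 2
              ≤ ((∫ o, F 0 o ^ 4 ∂P) - 3) / 3
                * (rAvg ρ D (fun z => w z ^ 2) - rAvg ρ D w ^ 2) + ε) ∧
          ((∃ x y : ℂ, x ≠ y ∧ ∫ o, F x o ^ 2 * F y o ^ 2 ∂P = 1 + 2 * waveK (x - y) ^ 2) ∨
            (∃ (r : ℕ) (c : Fin r → ℝ) (x : Fin r → ℂ), Function.Injective x ∧
              (∃ i j, i ≠ j ∧ c i ≠ 0 ∧ c j ≠ 0) ∧ ∫ o, (∑ i, c i * F (x i) o) ^ 4 ∂P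
                = 3 * (∑ i, ∑ j, c i * c j * waveK (x i - x j)) ^ 2) →
            QE.QuantumErgodic ρ φ m ∧
            ∀ x₁ x₂ x₃ x₄ : ℂ, ∫ o, F x₁ o * F x₂ o * F x₃ o * F x₄ o ∂P
              = waveK (x₁ - x₂) * waveK (x₃ - x₄) + waveK (x₁ - x₃) * waveK (x₂ - x₄)
                + waveK (x₁ - x₄) * waveK (x₂ - x₃))))) := by
  obtain ⟨h1, h2, h3, h4⟩ := PKM.end_closed Γ ρ hρ hρΓ D hDm hD hK φ m hφ hs hn Ω P F hF hlaw
  exact ⟨h1, h2, h4, fun hneg => ⟨h3 hneg,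
    fun hm => BSL.flm_closed Γ ρ hρ hρΓ hneg D hDm hD hK φ m hφ hs hn Ω P F hF hlaw hm⟩⟩
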