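import Pool.Agent.PWV.All
import Pool.Agent.PKM.AllC

/-!
# Plane waves, and Berry's conjecture up to order four

Let `Γ ⊂ SL(2, ℝ)` be countable with compact quotient `Γ \ ℍ` (fundamental domain `D`), with any metric
`e^{2ρ} (dx² + dy²) / y²`. Let `φₙ` be real smooth `Γ`-invariant Laplace eigenfunctions of this metric,
normalised in `L²`, with eigenvalues `mₙ² → ∞`. Let `Fₙ(x)` be `φₙ` near a uniform random point, in a
uniform random frame, at distances `x / mₙ`, and `K = J₀(|x|)` the covariance function of the random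
monochromatic wave. Let the random field `F` be a limit in law of `Fₙ` (finite-dimensional
distributions). **Nothing is assumed on the moments of `Fₙ` or `F`; mass may be lost in the limit.**

`φₙ` has *no plane waves in `L²`* if for suitable finite probability weights `w` on points `x` the number
`E sup_{|v| = 1} |∑ w_x Fₙ(x) e^{-i v·x}|²` is arbitrarily small for large `n` (`PKM.NoW`); the version for
boxes is `PKM.BoxW`: `E sup_v |A_N(v)|² → 0` for `n → ∞` and then `N → ∞`, where `A_N(v)` (`PWV.coef`) is the mean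
of `Fₙ(x) e^{-i v·x}` over the box `{0, …, N - 1}²`, and `v` is any vector of the plane.

* The moments of `F` of orders one to four are those of the random monochromatic wave (`PKM.Gauss4`) if
  and only if `φₙ` is quantum ergodic and has no plane waves in `L²`, in either form.
* If the curvature is negative, then, for every sequence, the mass equidistributes at the Planck scale,
  in measure (`PKM.Planck ρ D φ m 0`), if and only if `φₙ² → 1` weakly and there are no plane waves in `L²`,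
  in either form; if and only if `E F(0)² = 1` and `E F(0)⁴ = 3`.
* If `E F(0)² = 1` and `κ = E F(0)⁴ < ∞`, the expected energy of the plane waves in `F`,
  `(9 N² / 16 π²) ∫ |A_N(v)|⁴ dv` over the square `[-π, π]²` (`PWV.en`), has a limit `Q ≥ 0`, and
  `E P_N² → κ / 3 + Q` for the means `P_N` of `F(x)²` over the box (`PWV.loc`); `Q = 0` if and only if
  `E sup_v |A_N(v)|⁴ → 0`. If `φₙ` is quantum ergodic, then `κ = 3 + 3 Q`, the mixed moments of order three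
  vanish, and those of order four are the Gaussian ones plus `Q` times
  `K(x₁ + x₂ - x₃ - x₄) + K(x₁ + x₃ - x₂ - x₄) + K(x₁ + x₄ - x₂ - x₃)`. If the curvature is negative, then
  `κ ≥ 3 + 3 Q`, with equality if and only if `φₙ² → 1` weakly, and `κ = 3` if and only if
  `E (P_N - 1)² → 0`. The following are equivalent: the mixed moments of orders three and four are those
  of the random monochromatic wave; `φₙ` is quantum ergodic and `κ = 3`; `φₙ` is quantum ergodic and `Q = 0`;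
  `φₙ` is quantum ergodic and `E (P_N - 1)² → 0`; for every `a` the mean of `F(x) F(x + a)` over the box
  (`PWV.cor`) tends to `K(a)` in the mean square; for one `a ≠ 0`, `K(a)` is in the closed affine hull in
  `L²(P)` of the variables `F(x) F(x + a)`. They hold if the law of `F` is invariant and ergodic under
  translations.
-/

open MeasureTheory UpperHalfPlane MatrixGroups Berry Filter Topology
open scoped ContDiff

theorem Pool.Agent.Results.MP_4fa179_mp.PlaneWaves.result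
    (Γ : Subgroup SL(2, ℝ)) [Countable Γ] (ρ : ℍ → ℝ)
    (hρ : ContDiffOn ℝ ∞ (fun w : ℂ => ρ (ofComplex w)) {w | 0 < w.im})
    (hρΓ : ∀ γ ∈ Γ, ∀ z, ρ (γ • z) = ρ z)
    (D : Set ℍ) (hDm : MeasurableSet D) (hD : IsFundamentalDomain Γ D (volume : Measure ℍ))
    (hK : ∃ K : Set ℍ, IsCompact K ∧ ∀ z, ∃ γ ∈ Γ, γ • z ∈ K)
    (φ : ℕ → ℍ → ℝ) (m : ℕ → ℝ) (hφ : REigenSeq Γ ρ φ m)
    (hs : ∀ n, ContDiffOn ℝ ∞ (fun w : ℂ => φ n (ofComplex w)) {w | 0 < w.im})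
    (hn : ∀ n, rAvg ρ D (fun z => φ n z ^ 2) = 1)
    (Ω : Type) [MeasurableSpace Ω] (P : Measure Ω) [IsProbabilityMeasure P] (F : ℂ → Ω → ℝ)
    (hF : ∀ x, Measurable (F x))
    (hlaw : ∀ (r : ℕ) (x : Fin r → ℂ) (G : (Fin r → ℝ) → ℝ), Continuous G →
      (∃ C, ∀ t, |G t| ≤ C) →
      Tendsto (fun n => ∫ p, G (fun i => rWave ρ (φ n) (m n) (x i) p) ∂(rFrameProb ρ D))
        atTop (𝓝 (∫ o, G (fun i => F (x i) o) ∂P))) :
    List.TFAE [
      PKM.Gauss4 P F,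
      QE.QuantumErgodic ρ φ m ∧ PKM.BoxW ρ D φ m,
      QE.QuantumErgodic ρ φ m ∧ PKM.NoW ρ D φ m] ∧
    ((∀ z : ℍ, 0 < 1 + z.im ^ 2 * Laplacian.laplacian (fun w : ℂ => ρ (ofComplex w)) z) →
      List.TFAE [
        PKM.Planck ρ D φ m 0,
        PWV.Equi φ ∧ PKM.BoxW ρ D φ m,
        PWV.Equi φ ∧ PKM.NoW ρ D φ m,
        ∫ o, F 0 o ^ 2 ∂P = 1 ∧ ∫ o, F 0 o ^ 4 ∂P = 3]) ∧
    (∫ o, F 0 o ^ 2 ∂P = 1 → Integrable (fun o => F 0 o ^ 4) P →
      (∀ x : ℂ, Integrable (F x) P ∧ ∫ o, F x o ∂P = 0) ∧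
      (∀ x y : ℂ, Integrable (fun o => F x o * F y o) P ∧
        ∫ o, F x o * F y o ∂P = waveK (x - y)) ∧
      (∀ x₁ x₂ x₃ x₄ : ℂ, Integrable (fun o => F x₁ o * F x₂ o * F x₃ o * F x₄ o) P) ∧
      ∃ Q : ℝ, 0 ≤ Q ∧
        Tendsto (fun N => ∫ o, PWV.en (fun x => F x o) N ∂P) atTop (𝓝 Q) ∧
        Tendsto (fun N => ∫ o, PWV.loc (fun x => F x o) N ^ 2 ∂P) atTop
          (𝓝 ((∫ o, F 0 o ^ 4 ∂P) / 3 + Q)) ∧
        (Q = 0 ↔ Tendsto (fun N => ∫⁻ o, ⨆ v : ℂ,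
          ENNReal.ofReal (‖PWV.coef (fun x => F x o) N v‖ ^ 4) ∂P) atTop (𝓝 0)) ∧
        (QE.QuantumErgodic ρ φ m → ∫ o, F 0 o ^ 4 ∂P = 3 + 3 * Q ∧
          (∀ x₁ x₂ x₃ : ℂ, ∫ o, F x₁ o * F x₂ o * F x₃ o ∂P = 0) ∧
          ∀ x₁ x₂ x₃ x₄ : ℂ, ∫ o, F x₁ o * F x₂ o * F x₃ o * F x₄ o ∂P
            = waveK (x₁ - x₂) * waveK (x₃ - x₄) + waveK (x₁ - x₃) * waveK (x₂ - x₄)
              + waveK (x₁ - x₄) * waveK (x₂ - x₃)
              + Q * (waveK (x₁ + x₂ - x₃ - x₄) + waveK (x₁ + x₃ - x₂ - x₄)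
                + waveK (x₁ + x₄ - x₂ - x₃))) ∧
        ((∀ z : ℍ, 0 < 1 + z.im ^ 2 * Laplacian.laplacian (fun w : ℂ => ρ (ofComplex w)) z) →
          3 + 3 * Q ≤ ∫ o, F 0 o ^ 4 ∂P ∧ (∫ o, F 0 o ^ 4 ∂P = 3 + 3 * Q ↔ PWV.Equi φ) ∧
          (∫ o, F 0 o ^ 4 ∂P = 3 ↔
            Tendsto (fun N => ∫ o, (PWV.loc (fun x => F x o) N - 1) ^ 2 ∂P) atTop (𝓝 0)) ∧
          (∫ o, F 0 o ^ 4 ∂P = 3 ↔ PWV.Equi φ ∧ Q = 0)) ∧
        List.TFAE [
          (∀ x₁ x₂ x₃ : ℂ, ∫ o, F x₁ o * F x₂ o * F x₃ o ∂P = 0) ∧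
            ∀ x₁ x₂ x₃ x₄ : ℂ, ∫ o, F x₁ o * F x₂ o * F x₃ o * F x₄ o ∂P
              = waveK (x₁ - x₂) * waveK (x₃ - x₄) + waveK (x₁ - x₃) * waveK (x₂ - x₄)
                + waveK (x₁ - x₄) * waveK (x₂ - x₃),
          QE.QuantumErgodic ρ φ m ∧ ∫ o, F 0 o ^ 4 ∂P = 3,
          QE.QuantumErgodic ρ φ m ∧ Q = 0,
          QE.QuantumErgodic ρ φ m ∧
            Tendsto (fun N => ∫ o, (PWV.loc (fun x => F x o) N - 1) ^ 2 ∂P) atTop (𝓝 0),
          ∀ a : ℂ, Tendsto (fun N => ∫ o, (PWV.cor (fun x => F x o) N a - waveK a) ^ 2 ∂P) atTop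
            (𝓝 0),
          ∃ a : ℂ, a ≠ 0 ∧ ∀ ε > 0, ∃ (r : ℕ) (c : Fin r → ℝ) (x : Fin r → ℂ), ∑ i, c i = 1 ∧
            ∫ o, (∑ i, c i * (F (x i) o * F (x i + a) o) - waveK a) ^ 2 ∂P ≤ ε] ∧
        (BSL.Ergo P F → QE.QuantumErgodic ρ φ m ∧ Q = 0)) := by
  obtain ⟨h1, h2⟩ := PKM.end2_closed Γ ρ hρ hρΓ D hDm hD hK φ m hφ hs hn Ω P F hF hlaw
  refine ⟨?_, fun hneg => ?_, fun a1 a2 =>
    PWV.pwv_closed Γ ρ hρ hρΓ D hDm hD hK φ m hφ hs hn Ω P F hF hlaw a1 a2⟩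
  · tfae_have 1 ↔ 2 := h1.out 0 1 (h₁ := rfl) (h₂ := rfl)
    tfae_have 2 ↔ 3 := h1.out 1 2 (h₁ := rfl) (h₂ := rfl)
    tfae_finish
  · have h3 := h2 hneg
    tfae_have 1 ↔ 4 := h3.out 2 3 (h₁ := rfl) (h₂ := rfl)
    tfae_have 2 ↔ 4 := h3.out 0 3 (h₁ := rfl) (h₂ := rfl)
    tfae_have 3 ↔ 4 := h3.out 1 3 (h₁ := rfl) (h₂ := rfl)
    tfae_finish
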